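import Mathlib

/-!
MP_c81765_co: definitions, with integer matrices and explicit lattice bases. `ℤ^n` is
`Fin n → ℤ` and `ℝ^n` is `Fin n → ℝ`.
-/

set_option autoImplicit false

open scoped Pointwise

namespace Pool.Agent.HK

/-- An integer vector as a real vector. -/
def toR {n : ℕ} (z : Fin n → ℤ) : Fin n → ℝ := fun i => (z i : ℝ)

/-- The linear map of `ℝ^n` given by the integer matrix `A`. -/
def act {n : ℕ} (A : Matrix (Fin n) (Fin n) ℤ) (x : Fin n → ℝ) : Fin n → ℝ :=
  fun i => ∑ j, (A i j : ℝ) * x j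

/-- `P` is a lattice polytope: the convex hull of a finite nonempty set of integer vectors. -/
def IsLatticePolytope {n : ℕ} (P : Set (Fin n → ℝ)) : Prop :=
  ∃ S : Finset (Fin n → ℤ), S.Nonempty ∧ P = convexHull ℝ (toR '' (S : Set (Fin n → ℤ)))

/-- The set of the points of `P` fixed by `A`. -/
def fixedPart {n : ℕ} (A : Matrix (Fin n) (Fin n) ℤ) (P : Set (Fin n → ℝ)) :
    Set (Fin n → ℝ) :=
  {x | x ∈ P ∧ act A x = x}

/-- The dimension of `Q`: the dimension of the linear space parallel to the affine span of `Q`. -/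
noncomputable def dimension {n : ℕ} (Q : Set (Fin n → ℝ)) : ℕ :=
  Module.finrank ℝ (vectorSpan ℝ Q)

/-- The minimal `k > 0` for which the affine span of `k Q` meets `ℤ^n`. -/
noncomputable def index {n : ℕ} (Q : Set (Fin n → ℝ)) : ℕ :=
  sInf {k : ℕ | 0 < k ∧ ∃ z : Fin n → ℤ, toR z ∈ affineSpan ℝ ((k : ℝ) • Q)}

/-- `b` is a basis of the lattice of the integer vectors parallel to the affine span of `Q`: each
`b j` is one of these vectors, and each of these vectors is an integer combination of the `b j` in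
exactly one way. -/
def IsLatticeBasis {n d : ℕ} (Q : Set (Fin n → ℝ)) (b : Fin d → Fin n → ℤ) : Prop :=
  (∀ j, toR (b j) ∈ vectorSpan ℝ Q) ∧
    ∀ z : Fin n → ℤ, toR z ∈ vectorSpan ℝ Q →
      ∃! c : Fin d → ℤ, ∀ i, z i = ∑ j, c j * b j i

/-- The volume of `Q` in the coordinates `c ↦ x₀ + ∑ j, c j • b j`. -/
noncomputable def relVol {n d : ℕ} (Q : Set (Fin n → ℝ)) (b : Fin d → Fin n → ℤ)
    (x₀ : Fin n → ℝ) : ℝ :=
  MeasureTheory.volume.real {c : Fin d → ℝ | (fun i => x₀ i + ∑ j, c j * (b j i : ℝ)) ∈ Q}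

/-- `R` is the matrix of `A` in the coordinates given by `a`: `A a_j = ∑ l, R_{l j} a_l`. -/
def IsMatrixOn {n e : ℕ} (A : Matrix (Fin n) (Fin n) ℤ) (a : Fin e → Fin n → ℤ)
    (R : Matrix (Fin e) (Fin e) ℤ) : Prop :=
  ∀ j i, ∑ k, A i k * a j k = ∑ l, R l j * a l i

/-- The product of `1 - lam` over the complex eigenvalues `lam ≠ 1` of `R`, with multiplicity. -/
noncomputable def detPart {e : ℕ} (R : Matrix (Fin e) (Fin e) ℤ) : ℂ :=
  open Classical in
  (((R.map (fun z : ℤ => (z : ℂ))).charpoly.roots.filter (fun lam => lam ≠ 1)).map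
    (fun lam => 1 - lam)).prod

/-- The number `(dim Q)! vol(Q) D / ind(Q)` for `Q = P^g`, `vol(Q)` in the lattice basis `b` and
`D` the product over the eigenvalues of `R`. -/
noncomputable def phiOne {n d e : ℕ} (Q : Set (Fin n → ℝ)) (b : Fin d → Fin n → ℤ)
    (x₀ : Fin n → ℝ) (R : Matrix (Fin e) (Fin e) ℤ) : ℂ :=
  ((dimension Q).factorial : ℂ) * (relVol Q b x₀ : ℂ) * detPart R / (index Q : ℂ)

end Pool.Agent.HK
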