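import Pool.Agent.helper27.HG.Transfer
import Pool.Agent.helper27.HK.Defs

/-!
MP_c81765_co: the theorem of `HG.Transfer` for integer matrices and explicit lattice bases.
-/

set_option autoImplicit false
open scoped Pointwise

namespace Pool.Agent.HK

/-- The linear map of `ℤ^n` given by a matrix. -/
def linOf {n : ℕ} (A : Matrix (Fin n) (Fin n) ℤ) : (Fin n → ℤ) →ₗ[ℤ] (Fin n → ℤ) where
  toFun := A.mulVec
  map_add' := fun x y => Matrix.mulVec_add A x y
  map_smul' := fun c x => by
    funext i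
    simp [Matrix.mulVec, dotProduct, Finset.mul_sum, mul_left_comm]

theorem linOf_apply {n : ℕ} (A : Matrix (Fin n) (Fin n) ℤ) (z : Fin n → ℤ) :
    linOf A z = A.mulVec z := rfl

theorem realExt_linOf {n : ℕ} (A : Matrix (Fin n) (Fin n) ℤ) (x : Fin n → ℝ) :
    HG.realExt (linOf A) x = act A x := by
  funext i
  simp only [HG.realExt, act, Finset.sum_apply, Pi.smul_apply, HG.toR, linOf_apply, smul_eq_mul]
  refine Finset.sum_congr rfl fun j _ => ?_
  have h : (A.mulVec (Pi.single j 1)) i = A i j := by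
    simp
  rw [h, mul_comm]

theorem linOf_pow {n : ℕ} (A : Matrix (Fin n) (Fin n) ℤ) (m : ℕ) (z : Fin n → ℤ) :
    (linOf A ^ m) z = (A ^ m).mulVec z := by
  induction m generalizing z with
  | zero => simp
  | succ m ih =>
    rw [pow_succ, Module.End.mul_apply, ih, linOf_apply, Matrix.mulVec_mulVec, ← pow_succ]

theorem fixedPart_eq {n : ℕ} (A : Matrix (Fin n) (Fin n) ℤ) (P : Set (Fin n → ℝ)) :
    HG.fixedPart (linOf A) P = fixedPart A P := by
  ext x
  simp only [HG.fixedPart, fixedPart, Set.mem_setOf_eq, realExt_linOf]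

/-- The basis of the lattice given by `b`. -/
theorem exists_basis {n d : ℕ} (Q : Set (Fin n → ℝ)) (b : Fin d → Fin n → ℤ)
    (hb : IsLatticeBasis Q b) :
    ∃ B : Module.Basis (Fin d) ℤ (HG.parLattice Q), ∀ j, (B j : Fin n → ℤ) = b j := by
  classical
  obtain ⟨h1, h2⟩ := hb
  let v : Fin d → HG.parLattice Q := fun j => ⟨b j, h1 j⟩
  have hv : ∀ c : Fin d → ℤ, ((∑ j, c j • v j : HG.parLattice Q) : Fin n → ℤ) =
      fun i => ∑ j, c j * b j i := by
    intro c
    rw [Submodule.coe_sum]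
    funext i
    rw [Finset.sum_apply]
    rfl
  have hli : LinearIndependent ℤ v := by
    rw [Fintype.linearIndependent_iff]
    intro c hc
    have h3 : HG.toR (0 : Fin n → ℤ) ∈ vectorSpan ℝ Q := (HG.parLattice Q).zero_mem
    obtain ⟨c₀, -, huniq⟩ := h2 0 h3
    have h4 : c = c₀ := by
      apply huniq
      intro i
      have h5 := congrArg (fun z : HG.parLattice Q => (z : Fin n → ℤ) i) hc
      simp only [hv] at h5
      exact h5.symm
    have h6 : (fun _ => 0 : Fin d → ℤ) = c₀ := by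
      apply huniq
      intro i
      simp
    intro j
    rw [h4, ← h6]
  have hsp : ⊤ ≤ Submodule.span ℤ (Set.range v) := by
    rintro z -
    obtain ⟨c, hc, -⟩ := h2 z z.2
    have h3 : z = ∑ j, c j • v j := by
      apply Subtype.ext
      rw [hv]
      funext i
      exact hc i
    rw [h3]
    exact Submodule.sum_mem _ fun j _ => Submodule.smul_mem _ _ (Submodule.subset_span ⟨j, rfl⟩)
  refine ⟨Module.Basis.mk hli hsp, fun j => ?_⟩
  rw [Module.Basis.mk_apply]

theorem basis_isLatticeBasis {n d : ℕ} (Q : Set (Fin n → ℝ))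
    (B : Module.Basis (Fin d) ℤ (HG.parLattice Q)) :
    IsLatticeBasis Q (fun j => (B j : Fin n → ℤ)) := by
  have hB : ∀ c : Fin d → ℤ, ((∑ j, c j • B j : HG.parLattice Q) : Fin n → ℤ) =
      fun i => ∑ j, c j * (B j : Fin n → ℤ) i := by
    intro c
    rw [Submodule.coe_sum]
    funext i
    rw [Finset.sum_apply]
    rfl
  refine ⟨fun j => (B j).2, fun z hz => ?_⟩
  refine ⟨fun j => B.repr ⟨z, hz⟩ j, fun i => ?_, fun c hc => ?_⟩
  · have h1 := congrFun (hB (fun j => B.repr ⟨z, hz⟩ j)) i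
    rw [B.sum_repr] at h1
    exact h1
  · have h1 : (⟨z, hz⟩ : HG.parLattice Q) = ∑ j, c j • B j := by
      apply Subtype.ext
      rw [hB]
      funext i
      exact hc i
    funext j
    rw [h1, B.repr_sum_self]

/-- The theorem for one matrix of finite order. -/
theorem simple {n : ℕ} (A : Matrix (Fin n) (Fin n) ℤ) (m : ℕ) (hm : 0 < m) (hA : A ^ m = 1)
    (P : Set (Fin n → ℝ)) (hPol : IsLatticePolytope P) (hP : act A '' P = P) :
    (fixedPart A P).Nonempty ∧ 0 < index (fixedPart A P) ∧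
    (∃ (e : ℕ) (a : Fin e → Fin n → ℤ) (R : Matrix (Fin e) (Fin e) ℤ),
      IsLatticeBasis P a ∧ IsMatrixOn A a R) ∧
    (∃ (d : ℕ) (b : Fin d → Fin n → ℤ), IsLatticeBasis (fixedPart A P) b) ∧
    ∀ (e : ℕ) (a : Fin e → Fin n → ℤ) (R : Matrix (Fin e) (Fin e) ℤ),
      IsLatticeBasis P a → IsMatrixOn A a R →
      ∀ (d : ℕ) (b : Fin d → Fin n → ℤ), IsLatticeBasis (fixedPart A P) b →
      ∀ x₀ ∈ fixedPart A P,
        dimension (fixedPart A P) = d ∧
          ∃ N : ℕ, 0 < N ∧ phiOne (fixedPart A P) b x₀ R = (N : ℂ) := by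
  classical
  have hfm : linOf A ^ m = 1 := by
    refine LinearMap.ext fun z => ?_
    rw [linOf_pow, hA, Matrix.one_mulVec]
    rfl
  have hinv : HG.realExt (linOf A) '' P = P := by
    have h1 : HG.realExt (linOf A) = act A := funext (realExt_linOf A)
    rw [h1, hP]
  obtain ⟨hne, hind, hM, hmain⟩ := HG.transfer (linOf A) m hm hfm P hPol hinv
  rw [fixedPart_eq] at hne hind
  refine ⟨hne, hind, ?_, ?_, ?_⟩
  · let B := Module.finBasis ℤ (HG.parLattice P)
    refine ⟨_, fun j => (B j : Fin n → ℤ), LinearMap.toMatrix B B ((linOf A).restrict hM),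
      basis_isLatticeBasis P B, fun j i => ?_⟩
    have h1 := congrArg (fun z : HG.parLattice P => (z : Fin n → ℤ) i)
      (B.sum_repr ((linOf A).restrict hM (B j)))
    simp only [Submodule.coe_sum, Finset.sum_apply] at h1
    have h2 : (∑ k, A i k * (B j : Fin n → ℤ) k) =
        (((linOf A).restrict hM (B j) : HG.parLattice P) : Fin n → ℤ) i := rfl
    rw [h2, ← h1]
    refine Finset.sum_congr rfl fun l _ => ?_
    rw [LinearMap.toMatrix_apply]
    rfl
  · rw [← fixedPart_eq]
    exact ⟨_, _, basis_isLatticeBasis _ (Module.finBasis ℤ (HG.parLattice _))⟩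
  intro e a R ha hR d b hb x₀ hx₀
  rw [← fixedPart_eq] at hb hx₀ ⊢
  obtain ⟨Ba, hBa⟩ := exists_basis P a ha
  obtain ⟨Bb, hBb⟩ := exists_basis _ b hb
  obtain ⟨hd, N, hN0, hN⟩ := hmain d Bb x₀ hx₀
  refine ⟨hd, N, hN0, ?_⟩
  rw [← hN]
  have hmat : LinearMap.toMatrix Ba Ba ((linOf A).restrict hM) = R := by
    ext l j
    rw [LinearMap.toMatrix_apply]
    have h1 : (linOf A).restrict hM (Ba j) = ∑ l, R l j • Ba l := by
      apply Subtype.ext
      rw [Submodule.coe_sum]
      funext i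
      rw [Finset.sum_apply]
      have h2 : (((linOf A).restrict hM (Ba j) : HG.parLattice P) : Fin n → ℤ) i =
          ∑ k, A i k * (Ba j : Fin n → ℤ) k := rfl
      rw [h2, hBa, hR j i]
      refine Finset.sum_congr rfl fun l _ => ?_
      rw [← hBa l]
      rfl
    rw [h1, Ba.repr_sum_self]
  have hchar : (R.map (fun z : ℤ => (z : ℂ))).charpoly =
      ((linOf A).restrict hM).charpoly.map (Int.castRingHom ℂ) := by
    rw [← LinearMap.charpoly_toMatrix ((linOf A).restrict hM) Ba, hmat, ← Matrix.charpoly_map]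
    rfl
  have hdet : detPart R = HG.detPart (linOf A) P hM := by
    rw [detPart, HG.detPart, HG.eigenProduct, hchar]
  have hvol : relVol (HG.fixedPart (linOf A) P) b x₀ =
      HG.relVol (HG.fixedPart (linOf A) P) Bb x₀ := by
    rw [relVol, HG.relVol]
    congr 1
    ext c
    have h1 : (fun i => x₀ i + ∑ j, c j * (b j i : ℝ)) =
        x₀ + ∑ j, c j • HG.toR (Bb j : Fin n → ℤ) := by
      funext i
      simp only [Pi.add_apply, Finset.sum_apply, Pi.smul_apply, smul_eq_mul, HG.toR, hBb]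
    simp only [Set.mem_setOf_eq, h1]
  rw [phiOne, HG.phiOne, hdet, hvol]
  rfl

end Pool.Agent.HK
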